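import Pool.Agent.Y477.AV.Fin

set_option autoImplicit false

/-!
# The exact norm threshold for the kernel dimensions of matrices over group rings

For integer matrices of operator norm less than `3 / √2` over an arbitrary group all kernel
dimensions are in the group generated by the numbers `1 / |F|`, `F` a finite subgroup; just above
`3 / √2` every nonnegative real number occurs, already for finitely generated solvable groups in
which the elements of finite order have order at most two; and the Atiyah conjecture for groups with
bounded torsion is a statement about integer matrices of norm at most `c`, for any `c > 3 / √2`.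
-/

noncomputable section

namespace Pool.Agent.Results.MP_54e5d7_al.NormThreshold

open TH57.Thr

/-- The kernel of right multiplication by the matrix `A` on `ℓ²(G)^m`. -/
def kernel {G : Type} [Group G] {m n : ℕ} (A : Matrix (Fin m) (Fin n) (G →₀ ℂ)) :
    Set (lp (fun _ : Fin m × G => ℂ) 2) :=
  {x | ∀ (j : Fin n) (g : G),
    ∑ i : Fin m, (A i j).sum (fun h c => x (i, g * h⁻¹) * c) = 0}

open Classical in
/-- The von Neumann dimension of this kernel: the sum over `i` of one minus the squared distance
from the basis vector at `(i, 1)` to the kernel, that is, the trace of the projection onto the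
kernel. -/
def kerDim {G : Type} [Group G] {m n : ℕ} (A : Matrix (Fin m) (Fin n) (G →₀ ℂ)) : ℝ :=
  ∑ i : Fin m, (1 - (Metric.infDist
    (lp.single 2 (i, (1 : G)) (1 : ℂ) : lp (fun _ : Fin m × G => ℂ) 2) (kernel A)) ^ 2)

/-- An integer matrix as a complex matrix. -/
def complex {G : Type} [Group G] {m n : ℕ} (N : Matrix (Fin m) (Fin n) (MonoidAlgebra ℤ G)) :
    Matrix (Fin m) (Fin n) (G →₀ ℂ) :=
  fun i j => (N i j).coeff.mapRange (fun z : ℤ => (z : ℂ)) Int.cast_zero

/-- The orders of the finite subgroups of `G` are bounded, and `d` is their least common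
multiple. -/
def IsLcm (G : Type) [Group G] (d : ℕ) : Prop :=
  (∃ N : ℕ, ∀ H : Subgroup G, Finite H → Nat.card H ≤ N) ∧
    (∀ H : Subgroup G, Finite H → Nat.card H ∣ d) ∧
    ∀ e : ℕ, (∀ H : Subgroup G, Finite H → Nat.card H ∣ e) → d ∣ e

/-- `NormLE N c` (from `Pool.Agent.TH57.Thr.Defs`): right multiplication by `N` on `ℓ²` has norm at
most `|c|`.

1. Let `G` be any group and let `N` be an integer matrix of norm at most `|c| < 3 / √2`. Then the
   kernel dimension of every complex matrix `A` which is supported in the support of `N`, for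
   example `A = N`, is in the additive group generated by the numbers `1 / |F|`, `F` a finite
   subgroup of `G`; if all `|F|` divide `d`, then `d · dim ker A` is an integer.
2. For every `c > 3 / √2` every real number `r ≥ 0` is the kernel dimension of an integer matrix of
   norm at most `c` over a finitely generated solvable group in which all elements of finite order
   have order at most two.
3. Let `c > 3 / √2` and let `C` be a class of groups which is closed under direct products and under
   free products with free groups of finite rank, for example the class of all groups. The Atiyah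
   conjecture over `ℂ` holds for all groups of `C` with bounded torsion if and only if the numbers
   `d · dim ker N`, for the integer matrices `N` of norm at most `c` over these groups, avoid some
   interval `(a, b)` with `0 ≤ a < b`. -/
theorem result :
    (∀ (G : Type) [Group G] (m n : ℕ) (N : Matrix (Fin m) (Fin n) (MonoidAlgebra ℤ G)) (c : ℝ),
      c ^ 2 < 9 / 2 → NormLE N c → ∀ A : Matrix (Fin m) (Fin n) (G →₀ ℂ),
        (∀ i j g, A i j g ≠ 0 → (N i j).coeff g ≠ 0) →
        kerDim A ∈ AddSubgroup.closure
          {x : ℝ | ∃ F : Subgroup G, Finite F ∧ x = (Nat.card F : ℝ)⁻¹} ∧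
        ∀ d : ℕ, (∀ F : Subgroup G, Finite F → Nat.card F ∣ d) →
          ∃ z : ℤ, (d : ℝ) * kerDim A = z) ∧
    (∀ c : ℝ, 9 / 2 < c ^ 2 → ∀ r : ℝ, 0 ≤ r →
      ∃ (G : Type) (_ : Group G), Group.FG G ∧ Group.IsSolvable G ∧
        (∀ g : G, IsOfFinOrder g → g ^ 2 = 1) ∧
        ∃ (m n : ℕ) (N : Matrix (Fin m) (Fin n) (MonoidAlgebra ℤ G)), NormLE N c ∧
          kerDim (complex N) = r) ∧
    (∀ c : ℝ, 9 / 2 < c ^ 2 → ∀ C : (G : Type) → [Group G] → Prop,
      (∀ (G H : Type) [Group G] [Group H], C G → C H → C (G × H)) →
      (∀ (G : Type) [Group G] (m : ℕ), C G → C (Monoid.Coprod G (FreeGroup (Fin m)))) →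
      ((∀ (G : Type) [Group G], C G → ∀ d : ℕ, IsLcm G d →
        ∀ (m n : ℕ) (A : Matrix (Fin m) (Fin n) (G →₀ ℂ)), ∃ z : ℤ, (d : ℝ) * kerDim A = z) ↔
      ∃ a b : ℝ, 0 ≤ a ∧ a < b ∧ ∀ (G : Type) [Group G], C G → ∀ d : ℕ, IsLcm G d →
        ∀ (m n : ℕ) (N : Matrix (Fin m) (Fin n) (MonoidAlgebra ℤ G)), NormLE N c →
          ¬ (a < (d : ℝ) * kerDim (complex N) ∧ (d : ℝ) * kerDim (complex N) < b))) := by
  refine ⟨?_, ?_, ?_⟩
  · intro G _ m n N c hc hN A hA
    have h : kerDim A ∈ Pool.Agent.Y477.AV.Lam G := Pool.Agent.Y477.AV.below N c hc hN A hA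
    exact ⟨h, fun d hd => Pool.Agent.Y477.AV.Lam_int G d hd _ h⟩
  · intro c hc r hr
    exact Pool.Agent.Y477.AV.above c hc r hr
  · intro c hc C hprod hfree
    exact Pool.Agent.Y477.AV.gap_iff c hc C hprod hfree

end Pool.Agent.Results.MP_54e5d7_al.NormThreshold
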