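import Pool.Agent.Y84.PA.Main

/-!
Kernel dimensions of von Neumann regular matrices over the complex group ring of a group which is
locally embeddable into finite groups are rational, and the primes in their denominators are
orders of elements of the group.

Proof.  Let `A X A = A`.  The kernel of right multiplication by `A` on `ℓ²(G)^m` is the image of the
idempotent `E = 1 - A X`, and its dimension is the Kaplansky trace `τ = ∑ i, E_ii(1)`.  Let `p` be a
prime which is not the order of an element of `G`.  Specialise the coefficients of `E` to the
algebraic closure of `ℚ_p`; they have norms at most some `P`.  Choose `k` with `P ^ 2 |p| ^ k ≤ 1` and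
a map from `G` to a finite group `Q` which is injective and multiplicative on a large finite set, so
that the images of the elements `g ≠ 1` of the support of `E` have no `p ^ k`-th power equal to `1`.
Let `P₀` be a Sylow `p`-subgroup of `Q`.  The character of `P₀` on the projective module defined by `E`
vanishes at `y ≠ 1`: this is clear if `y` is not conjugate to the image of an element of the support
of `E`, and otherwise `p ^ k` divides the order of `y`, and the character vanishes by the `p`-adic
argument in `Pool.Agent.Y84.PT.C` (a deformation of `y` along a `p`-adic disc between roots of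
unity). Hence this character is a multiple of the regular one and `[Q : P₀] τ` is an integer.
-/

set_option autoImplicit false

namespace Pool.Agent.Results.MP_54e5d7_al.RegularMatricesLEF

open scoped ENNReal

/-- The kernel of right multiplication by the matrix `A` on `ℓ²(G)^m`. -/
def kernel {G : Type} [Group G] {m n : ℕ} (A : Matrix (Fin m) (Fin n) (MonoidAlgebra ℂ G)) :
    Set (lp (fun _ : Fin m × G => ℂ) 2) :=
  {x | ∀ (j : Fin n) (g : G),
    ∑ i : Fin m, (A i j).coeff.sum (fun h c => x (i, g * h⁻¹) * c) = 0}

open Classical in
/-- The von Neumann dimension of this kernel: the sum over `i` of one minus the squared distance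
from the basis vector at `(i, 1)` to the kernel, that is, the trace of the projection onto the
kernel. -/
noncomputable def kerDim {G : Type} [Group G] {m n : ℕ}
    (A : Matrix (Fin m) (Fin n) (MonoidAlgebra ℂ G)) : ℝ :=
  ∑ i : Fin m, (1 - (Metric.infDist
    (lp.single 2 (i, (1 : G)) (1 : ℂ) : lp (fun _ : Fin m × G => ℂ) 2) (kernel A)) ^ 2)

/-- residually finite -/
def RF (G : Type) [Group G] : Prop :=
  ∀ g : G, g ≠ 1 → ∃ N : Subgroup G, N.Normal ∧ N.FiniteIndex ∧ g ∉ N

/-- locally embeddable into finite groups -/
def LEF (G : Type) [Group G] : Prop :=
  ∀ W : Finset G, ∃ (Q : Type) (_ : Group Q) (_ : Finite Q) (f : G → Q),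
    Set.InjOn f W ∧ ∀ x ∈ W, ∀ y ∈ W, f (x * y) = f x * f y

/-- Let `G` be a group (with or without torsion) which is locally embeddable into finite groups, for
example a group whose finitely generated subgroups are residually finite, and let `A` be an `m × n`
matrix over `ℂ[G]` which is von Neumann regular, `A X A = A`. Then the von Neumann dimension of the
kernel of right multiplication by `A` on `ℓ²(G)^m` is a rational number `r`, and every prime which
divides the denominator of `r` is the order of an element of `G`. -/
theorem result (G : Type) [Group G] (hG : LEF G ∨ ∀ H : Subgroup G, H.FG → RF H)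
    (m n : ℕ) (A : Matrix (Fin m) (Fin n) (MonoidAlgebra ℂ G))
    (X : Matrix (Fin n) (Fin m) (MonoidAlgebra ℂ G)) (hA : A * X * A = A) :
    ∃ r : ℚ, kerDim A = (r : ℝ) ∧ ∀ p : ℕ, p.Prime → p ∣ r.den → ∃ g : G, orderOf g = p := by
  have h3 : Pool.Agent.Y84.PT.LEF G := by
    rcases hG with h4 | h4
    · exact h4
    · exact Pool.Agent.Y84.PT.lef_of_local
        (fun H hH => Pool.Agent.Y84.PT.lef_of_rf (h4 H hH))
  exact Pool.Agent.Y84.PA.dim_rat h3 A X hA

end Pool.Agent.Results.MP_54e5d7_al.RegularMatricesLEF
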